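import Pool.Agent.Helper12.LocPat

/-!
# Progression-free sets in `F_p^n` given by formulas of depth three with linear forms

We consider the subsets `A` of `F_p^n` which are unions of `M` sets, each given by the conjunction of
an arbitrary family of constraints of width `w`; a constraint of width `w` is a condition on `x` which
depends only on the values of `w` linear forms in the `n` coordinates. (Formulas of depth three with
linear forms and fan-in `w` at the bottom; the number of constraints is not bounded.)

There is `γ = γ (p, w) > 0` such that the sets of this kind without `k`-term progressions, `k ≤ p`, have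
at most `C M p ^ ((1 - γ) n)` elements. So their exponential growth rate is smaller than `p`, also if
`M` grows exponentially.

Proof. A conjunction of constraints of width `w` with density larger than `(1 - p ^ (- w)) ^ T`
contains an affine subspace of codimension at most `T w (w + 1) / 2`: choose constraints greedily whose
forms are linearly independent modulo the forms already used; there are less than `T` of them, so
on each coset of the common kernel of at most `w T` forms all constraints have width `w - 1`; pass to the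
densest coset. A set without `k`-term progressions contains no line.
-/

set_option autoImplicit false

namespace Pool.Agent.Results.MP_b30443_co.DepthThreeFormulas

open Finset Pool.Agent.Helper12.LocBic

/-- A constraint of width `w`: a condition `φ` which depends only on the values of `w` linear forms. -/
def IsConstraint (p w n : ℕ) (φ : (Fin n → ZMod p) → Prop) : Prop :=
  ∃ l : Fin w → ((Fin n → ZMod p) →ₗ[ZMod p] ZMod p),
    ∀ z z', (∀ i, l i z = l i z') → (φ z ↔ φ z')

/-- A conjunction of an arbitrary family `Φ` of constraints of width `w`. -/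
def IsConj (p w n : ℕ) (F : (Fin n → ZMod p) → Prop) : Prop :=
  ∃ Φ : Set ((Fin n → ZMod p) → Prop), (∀ φ ∈ Φ, IsConstraint p w n φ) ∧
    ∀ z, F z ↔ ∀ φ ∈ Φ, φ z

/-- `A` is the union of `M` sets, each given by a conjunction of constraints of width `w`. -/
def GivenBy (p w n M : ℕ) (A : Finset (Fin n → ZMod p)) : Prop :=
  ∃ F : Fin M → (Fin n → ZMod p) → Prop, (∀ i, IsConj p w n (F i)) ∧ ∀ q, q ∈ A ↔ ∃ i, F i q

/-- `A` contains no nontrivial `k`-term progression `x, x + y, …, x + (k - 1) y`, `y ≠ 0`. -/
def APFree {p n : ℕ} (k : ℕ) (A : Finset (Fin n → ZMod p)) : Prop :=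
  ∀ x y : Fin n → ZMod p, (∀ i : ℕ, i < k → x + i • y ∈ A) → y = 0

/-- The exponent `γ (p, w) = log (p ^ w / (p ^ w - 1)) / ((w (w + 1) / 2) log p) > 0`. -/
noncomputable def γ (p w : ℕ) : ℝ :=
  Real.log ((p : ℝ) ^ w / ((p : ℝ) ^ w - 1)) / ((w * (w + 1) / 2 : ℕ) * Real.log p)

/-- Let `p` be prime and `w ≥ 1`. (1) A subset of `F_p^n` without nontrivial `k`-term progressions which
is the union of `M` sets given by conjunctions of constraints of width `w` has at most
`C M p ^ ((1 - γ) n)` elements, `C = p ^ w / (p ^ w - 1) p ^ γ`. (2) `γ > 0`. -/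
theorem result :
    (∀ p w k n M : ℕ, p.Prime → 1 ≤ w → ∀ A : Finset (Fin n → ZMod p), GivenBy p w n M A →
      APFree k A → (A.card : ℝ) ≤
        (p : ℝ) ^ w / ((p : ℝ) ^ w - 1) * (p : ℝ) ^ γ p w * M *
          (p : ℝ) ^ ((1 - γ p w) * n)) ∧
    (∀ p w : ℕ, p.Prime → 1 ≤ w → 0 < γ p w) := by
  refine ⟨?_, fun p w hp hw => gam_pos hp hw⟩
  intro p w k n M hp hw A hA hfree
  have : Fact p.Prime := ⟨hp⟩
  obtain ⟨F, hF, hAF⟩ := hA
  have h := pattern_bound (b := 1) (m := n) hw le_rfl A F hF hAF (by
    intro y W D hW hD hall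
    have hfin : Module.finrank (ZMod p) (Fin n → ZMod p) = n := by
      rw [Module.finrank_fintype_fun_eq_card, Fintype.card_fin]
    rw [hfin] at hW
    have h5 : 0 < Module.finrank (ZMod p) W := by omega
    obtain ⟨⟨z, hz⟩, hz0⟩ := Module.finrank_pos_iff_exists_ne_zero.1 h5
    exact hz0 (Subtype.ext (hfree y z fun i _ => hall _ (W.smul_of_tower_mem i hz))))
  have hexp : Real.exp (lam p w) = (p : ℝ) ^ w / ((p : ℝ) ^ w - 1) := by
    have h2 : (2 : ℝ) ≤ (p : ℝ) ^ w := by
      have h1 : 2 ≤ p ^ w := by
        calc 2 ≤ p := hp.two_le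
          _ = p ^ 1 := (pow_one p).symm
          _ ≤ p ^ w := Nat.pow_le_pow_right hp.pos hw
      exact_mod_cast h1
    rw [lam, Real.exp_log]
    apply div_pos <;> linarith
  have hp0 : (0 : ℝ) < p := by exact_mod_cast hp.pos
  rw [hexp, Nat.cast_one, div_one, Fintype.card_fun, ZMod.card, Fintype.card_fin] at h
  refine h.trans (le_of_eq ?_)
  have e : (p : ℝ) ^ ((1 - γ p w) * n) = ((p : ℝ) ^ n) ^ (-(γ p w)) * (p : ℝ) ^ n := by
    rw [← Real.rpow_natCast (p : ℝ) n, ← Real.rpow_mul hp0.le, ← Real.rpow_add hp0]
    congr 1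
    ring
  rw [e]
  push_cast
  show (M : ℝ) * ((p : ℝ) ^ w / ((p : ℝ) ^ w - 1) * (p : ℝ) ^ γ p w *
    ((p : ℝ) ^ n) ^ (-(γ p w)) * (p : ℝ) ^ n) = _
  ring

end Pool.Agent.Results.MP_b30443_co.DepthThreeFormulas
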