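import Pool.Agent.Results.MP_b30443_co.BlockSymmetric

/-!
# Four-term progressions in `F_7^n`: `λ_{4,7} ≥ √26`

An explicit set `S` of `26` points of the plane `F_7^2` together with a weight `g` on `S` such that
`g(a) + g(a + 3y) > g(a + y) + g(a + 2y)` for all nontrivial four-term progressions in `S`. Hence
`S` carries no balanced weight on its progressions, and `λ_{4,7}^2 ≥ 26`. This is larger than the
bound `7^(5/6)` of the norm form.
-/

set_option autoImplicit false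

namespace Pool.Agent.Results.MP_b30443_co.FourTermSeven

open Finset Pool.Agent.Results.MP_b30443_co.BlockSymmetric

/-- The weights plus one; `0` means that the point is not in the set. -/
def tab : List ℕ :=
  [8, 21, 0, 26, 0, 1, 0, 19, 4, 0, 0, 30, 0, 0, 0, 17, 1, 17, 0, 0, 22, 30, 0, 0, 9, 0, 0, 0, 18,
    20, 6, 24, 0, 11, 0, 0, 23, 30, 0, 8, 1, 0, 22, 0, 19, 23, 0, 10, 0]

/-- Weight of the point with coordinates `a, b`. -/
def wt (a b : ZMod 7) : ℕ := tab.getD (a.val + 7 * b.val) 0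

/-- The set of `26` points. -/
def S : Finset (Fin 2 → ZMod 7) := univ.filter fun v => wt (v 0) (v 1) ≠ 0

instance fact7 : Fact (Nat.Prime 7) := ⟨by norm_num⟩

lemma check : ∀ a b c d : ZMod 7, (c ≠ 0 ∨ d ≠ 0) → wt a b ≠ 0 → wt (a + c) (b + d) ≠ 0 →
    wt (a + 2 * c) (b + 2 * d) ≠ 0 → wt (a + 3 * c) (b + 3 * d) ≠ 0 →
    wt (a + c) (b + d) + wt (a + 2 * c) (b + 2 * d) < wt a b + wt (a + 3 * c) (b + 3 * d) := by
  decide +kernel

lemma card_S : S.card = 26 := by
  have h : S.card = ((univ : Finset (ZMod 7 × ZMod 7)).filter fun q => wt q.1 q.2 ≠ 0).card := by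
    apply Finset.card_bij' (fun v _ => (v 0, v 1)) (fun q _ => ![q.1, q.2])
    · intro v hv
      simpa [S] using hv
    · intro q hq
      simpa [S] using hq
    · intro v _
      ext i
      fin_cases i <;> rfl
    · intro q _
      rfl
  rw [h]
  decide +kernel

/-- Sum rule for the marginals. -/
lemma marg (w : (Fin 2 → ZMod 7) × (Fin 2 → ZMod 7) → ℕ) (i : ℕ) (hi : i < 4)
    (h : ∀ i : ℕ, i < 4 → ∀ s : Fin 2 → ZMod 7,
      (∑ q, if q.1 + i • q.2 = s then w q else 0) = ∑ q, if q.1 = s then w q else 0) :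
    ∑ q, w q * wt ((q.1 + i • q.2) 0) ((q.1 + i • q.2) 1) = ∑ q, w q * wt (q.1 0) (q.1 1) := by
  have key : ∀ f : (Fin 2 → ZMod 7) × (Fin 2 → ZMod 7) → (Fin 2 → ZMod 7),
      ∑ q, w q * wt ((f q) 0) ((f q) 1) =
        ∑ s : Fin 2 → ZMod 7, (∑ q, if f q = s then w q else 0) * wt (s 0) (s 1) := by
    intro f
    simp_rw [Finset.sum_mul]
    rw [Finset.sum_comm]
    refine Finset.sum_congr rfl fun q _ => ?_
    rw [Finset.sum_eq_single (f q)]
    · simp
    · intro s _ hs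
      rw [if_neg (Ne.symm hs), zero_mul]
    · intro h
      exact absurd (Finset.mem_univ _) h
  rw [key (fun q => q.1 + i • q.2), key (fun q => q.1)]
  refine Finset.sum_congr rfl fun s _ => ?_
  rw [h i hi s]

lemma unbalanced : ¬ Balanced 4 7 2 S := by
  rintro ⟨w, ⟨q₀, hq₀⟩, hw, hm⟩
  have h0 := marg w 0 (by norm_num) hm
  have h1 := marg w 1 (by norm_num) hm
  have h2 := marg w 2 (by norm_num) hm
  have h3 := marg w 3 (by norm_num) hm
  have hlt : ∑ q, w q * (wt ((q.1 + 1 • q.2) 0) ((q.1 + 1 • q.2) 1) +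
        wt ((q.1 + 2 • q.2) 0) ((q.1 + 2 • q.2) 1)) <
      ∑ q, w q * (wt ((q.1 + 0 • q.2) 0) ((q.1 + 0 • q.2) 1) +
        wt ((q.1 + 3 • q.2) 0) ((q.1 + 3 • q.2) 1)) := by
    have hpt : ∀ q, w q ≠ 0 → wt ((q.1 + 1 • q.2) 0) ((q.1 + 1 • q.2) 1) +
        wt ((q.1 + 2 • q.2) 0) ((q.1 + 2 • q.2) 1) <
        wt ((q.1 + 0 • q.2) 0) ((q.1 + 0 • q.2) 1) +
        wt ((q.1 + 3 • q.2) 0) ((q.1 + 3 • q.2) 1) := by
      intro q hq
      obtain ⟨hy, hS⟩ := hw q hq
      have g : ∀ i : ℕ, i < 4 → wt ((q.1 + i • q.2) 0) ((q.1 + i • q.2) 1) ≠ 0 := by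
        intro i hi
        have := hS i hi
        simpa [S] using this
      have hy' : q.2 0 ≠ 0 ∨ q.2 1 ≠ 0 := by
        by_contra hcon
        push Not at hcon
        apply hy
        funext i
        fin_cases i
        · exact hcon.1
        · exact hcon.2
      have g0 := g 0 (by norm_num)
      have g1 := g 1 (by norm_num)
      have g2 := g 2 (by norm_num)
      have g3 := g 3 (by norm_num)
      simp only [Pi.add_apply, nsmul_eq_mul, add_zero, Nat.cast_ofNat, Pi.mul_apply,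
        Pi.ofNat_apply, zero_smul, one_smul] at g0 g1 g2 g3 ⊢
      exact check _ _ _ _ hy' g0 g1 g2 g3
    apply Finset.sum_lt_sum
    · intro q _
      by_cases hq : w q = 0
      · rw [hq, zero_mul, zero_mul]
      · exact Nat.mul_le_mul_left _ (hpt q hq).le
    · exact ⟨q₀, Finset.mem_univ _, Nat.mul_lt_mul_of_pos_left (hpt q₀ hq₀)
        (Nat.pos_of_ne_zero hq₀)⟩
  simp_rw [Nat.mul_add, Finset.sum_add_distrib] at hlt
  rw [h0, h1, h2, h3] at hlt
  exact lt_irrefl _ hlt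

/-- `λ_{4,7} ≥ √26 > 7^(5/6)`: the subsets of `F_7^n` without nontrivial four-term progression can
have at least `(√26 - o(1))^n = 5.099^n` elements, more than the `7^(5n/6) = 5.061^n` of the norm
form. -/
theorem result : Real.sqrt 26 ≤ lam 4 7 ∧
    (7 : ℝ) ^ ((1 : ℝ) - 2 / ((4 : ℝ) * ((4 : ℝ) - 1))) < Real.sqrt 26 := by
  constructor
  · have h1 := M_le_lam (p := 7) 4 2 (by norm_num) (by norm_num)
    have h2 : 26 ≤ M 4 7 2 := by
      have := le_M unbalanced
      rwa [card_S] at this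
    have h3 : (26 : ℝ) ≤ lam 4 7 ^ 2 := by
      refine le_trans ?_ h1
      exact_mod_cast h2
    calc Real.sqrt 26 ≤ Real.sqrt (lam 4 7 ^ 2) := Real.sqrt_le_sqrt h3
      _ = lam 4 7 := Real.sqrt_sq (lam_nonneg (p := 7) 4)
  · have e : (1 : ℝ) - 2 / ((4 : ℝ) * ((4 : ℝ) - 1)) = 5 / 6 := by norm_num
    rw [e]
    have h0 : (0 : ℝ) ≤ (7 : ℝ) ^ ((5 : ℝ) / 6) := by positivity
    have h6 : ((7 : ℝ) ^ ((5 : ℝ) / 6)) ^ 6 = 16807 := by
      rw [← Real.rpow_natCast, ← Real.rpow_mul (by norm_num)]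
      norm_num
    have h7 : (Real.sqrt 26) ^ 6 = 17576 := by
      have : (Real.sqrt 26) ^ 6 = ((Real.sqrt 26) ^ 2) ^ 3 := by ring
      rw [this, Real.sq_sqrt (by norm_num)]
      norm_num
    refine lt_of_pow_lt_pow_left₀ 6 (Real.sqrt_nonneg _) ?_
    rw [h6, h7]
    norm_num

end Pool.Agent.Results.MP_b30443_co.FourTermSeven
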