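import Pool.Agent.V11163.LF.Fp

/-!
# Progression-free subsets of `F_p ^ n` recognized by tree tensor networks

A tree tensor network `Net K V (ZMod p) W` (`Pool/Agent/TH700/PA/Defs.lean`) has leaves that read one
coordinate each (with a vector in `K ^ W` for each value of the coordinate); an inner node combines the
vectors of its two children by an arbitrary bilinear map; the value is a linear form of the vector of the
root. The field `K`, the weights, the tree and the order of the coordinates are arbitrary, so there may
be cancellations; the bond dimension is `card W`. The network recognizes the set of the vectors with a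
nonzero value (`Recog w A`: a network of bond dimension at most `w` that reads every coordinate at most
once recognizes `A`). For instance nondeterministic machines with `w` states that read the coordinates
once in any order are networks over `ℚ` with bond dimension `w` (count the accepting runs).

**Theorem.** (1) For all `p` and `w` there are `c, C > 0` such that a union of `M` recognized sets
(bond dimension at most `w`) without nontrivial `k`-term progressions has at most `C M (p ^ n) ^ (1 - c)`
elements, for all `k`, `n`, `M`. (2) The same holds if the union contains no affine subspace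
`x + ⟨v_1, ..., v_m⟩` spanned by `0`-`1` vectors with disjoint supports, `c` depending on `p, w, m`.
(3) It is enough that the function `f` with `A = {f ≠ 0}` has rank at most `d` for many partitions of the
coordinates into a block of at least `N` coordinates and the others: if there are `t` disjoint such
blocks, then `s ^ t |A| ≤ p ^ n`, where `N` depends on `p, m, d, s` only.
(4) Every set is recognized with bond dimension `|A|`.

**Proof.** If `f` has rank at most `d` for the block `P`, then the vectors on `P` that can be completed to
an element of `A` are covered by `d` sections of `A` (interpolation). The sections contain no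
combinatorial subspace, so they have density at most `1 / (s d)` by the density Hales-Jewett theorem
(library). The blocks are independent. A tree tensor network has many such blocks.
-/

set_option autoImplicit false

open Finset

namespace Pool.Agent.Results.MP_b30443_co.TensorNetworks

open Pool.Agent.V11163.LF
open Pool.Agent.TH700.PA (Net Rk)

theorem result (p : ℕ) (hp : p.Prime) :
    -- (1) sets without progressions
    (∀ w : ℕ, ∃ c C : ℝ, 0 < c ∧ 0 < C ∧ ∀ (k n M : ℕ) (A : Set (Fin n → ZMod p))
      (B : Fin M → Set (Fin n → ZMod p)), APFree k A → (∀ x, x ∈ A ↔ ∃ i, x ∈ B i) →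
      (∀ i, Recog w (B i)) → (Nat.card A : ℝ) ≤ C * M * ((p : ℝ) ^ n) ^ (1 - c)) ∧
    -- (2) sets without subspaces spanned by 0-1 vectors with disjoint supports
    (∀ m w : ℕ, ∃ c C : ℝ, 0 < c ∧ 0 < C ∧ ∀ (n M : ℕ) (A : Set (Fin n → ZMod p))
      (B : Fin M → Set (Fin n → ZMod p)), NoSubspace m A → (∀ x, x ∈ A ↔ ∃ i, x ∈ B i) →
      (∀ i, Recog w (B i)) → (Nat.card A : ℝ) ≤ C * M * ((p : ℝ) ^ n) ^ (1 - c)) ∧
    -- (3) functions of small rank for many blocks of coordinates
    (∀ m d s : ℕ, 1 ≤ d → 1 ≤ s → ∃ N : ℕ, 1 ≤ N ∧ ∀ (n t : ℕ) (K : Type) [Field K]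
      (f : (Fin n → ZMod p) → K) (P : Fin t → Finset (Fin n)), (∀ i j, i ≠ j → Disjoint (P i) (P j)) →
      (∀ j, N ≤ (P j).card) → (∀ j, Rk d f (P j)) → NoSubspace m {x | f x ≠ 0} →
      s ^ t * Nat.card {x | f x ≠ 0} ≤ p ^ n) ∧
    -- (4) all sets are recognized with large bond dimension
    (∀ (n : ℕ) (A : Set (Fin n → ZMod p)), 1 ≤ n → Recog (Nat.card A) A) := by
  classical
  have : Fact p.Prime := ⟨hp⟩
  have h2 : ∀ m w : ℕ, ∃ c C : ℝ, 0 < c ∧ 0 < C ∧ ∀ (n M : ℕ) (A : Set (Fin n → ZMod p))
      (B : Fin M → Set (Fin n → ZMod p)), NoSubspace m A → (∀ x, x ∈ A ↔ ∃ i, x ∈ B i) →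
      (∀ i, Recog w (B i)) → (Nat.card A : ℝ) ≤ C * M * ((p : ℝ) ^ n) ^ (1 - c) := by
    intro m w
    obtain ⟨c, C, hc, hC, h⟩ := net_real (ZMod p) m w
    refine ⟨c, C, hc, hC, fun n M A B hA hAB hB => ?_⟩
    have h1 := h (Fin n) M A.toFinset B (by rw [Set.coe_toFinset]; exact sfree_of_noSubspace hA)
      (fun x => by rw [Set.mem_toFinset]; exact hAB x) hB
    rwa [ZMod.card, Fintype.card_fin, Set.toFinset_card, ← Nat.card_eq_fintype_card] at h1
  refine ⟨fun w => ?_, h2, ?_, ?_⟩
  · obtain ⟨c, C, hc, hC, h⟩ := h2 1 w
    exact ⟨c, C, hc, hC, fun k n M A B hA => h n M A B (noSubspace_of_apFree hp hA)⟩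
  · intro m d s hd hs
    obtain ⟨N, hN1, hN⟩ := blocks (ZMod p) m d s hd hs
    refine ⟨N, hN1, fun n t K _ f P hP hc hR hS => ?_⟩
    have h1 := hN (Fin n) K f (Fin t) P univ hP (fun j _ => hc j) (fun j _ => hR j)
      (sfree_of_noSubspace hS) {x | f x ≠ 0}.toFinset (fun x hx => by
        rw [Set.mem_toFinset] at hx
        exact hx)
    rwa [card_univ, Fintype.card_fin, Fintype.card_fun, ZMod.card, Fintype.card_fin,
      Set.toFinset_card, ← Nat.card_eq_fintype_card] at h1
  · intro n A hn
    have : Nonempty (Fin n) := ⟨⟨0, hn⟩⟩
    have h1 := recog_card A.toFinset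
    rwa [Set.coe_toFinset, Set.toFinset_card, ← Nat.card_eq_fintype_card] at h1

end Pool.Agent.Results.MP_b30443_co.TensorNetworks
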