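import Pool.Agent.H281A.Num

/-!
# Progression-free sets in `F_p^n`: certificates of low degree and sums of varieties

The point `x` of `A` has a certificate of degree `D` if there is a polynomial of degree at most `D`
which vanishes outside of `A` but not at `x`. We show that only few points of a set without
`k`-term progressions have certificates of degree less than `(1 - δ) (p - 1) n / (k - 2)`, and
derive an exponential saving for the sets without four-term progressions which are unions of
`p^(c n)` sets, each given by a linear combination modulo `p` of the indicator functions of `p^(c n)`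
varieties of degree `d` (common zero sets of arbitrarily many polynomials of degree at most `d`);
for longer progressions if `p` is large in terms of `k` and `d`.

Proof. If `R` vanishes outside of `A`, the matrix with the entries
`∏_{2 ≤ i < k} R (x + i (z - x))`, `x, z ∈ A`, is diagonal, and its rank is at most twice the number
of reduced monomials of degree at most `(k - 2) deg R / 2`. The indicator function of a variety
agrees with a polynomial of degree `(p - 1) d t` outside of a set of density `p ^ (-t)`. Multiply the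
approximation by a polynomial `Q` of degree almost `(p - 1) n / 2` which vanishes on the exceptional
set, but not on most of the points of `A`; by the bound for the degree closure there is such a
polynomial, because the number of reduced monomials of degree at most `(1 / 2 - η) (p - 1) n` is at
least `p ^ ((1 - o(η)) n)` (fourth moment method).
-/

set_option autoImplicit false

namespace Pool.Agent.Results.MP_b30443_co.VarietiesAndCertificates

open Finset Classical

/-- `A` contains no `k`-term progression `x, x + y, …, x + (k - 1) y` with `y ≠ 0`. -/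
def APFree {p n : ℕ} (k : ℕ) (A : Finset (Fin n → ZMod p)) : Prop :=
  ∀ x y : Fin n → ZMod p, (∀ i < k, x + i • y ∈ A) → y = 0

/-- Some polynomial of degree at most `D` vanishes outside of `A`, but not at `x`. -/
def HasCertificate {p n : ℕ} (D : ℕ) (A : Finset (Fin n → ZMod p)) (x : Fin n → ZMod p) : Prop :=
  ∃ f : MvPolynomial (Fin n) (ZMod p), f.totalDegree ≤ D ∧ MvPolynomial.eval x f ≠ 0 ∧
    ∀ y, y ∉ A → MvPolynomial.eval y f = 0

/-- `V` is the common zero set of a (finite or infinite) family of polynomials of degree at most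
`d`. -/
def IsVariety {p n : ℕ} (d : ℕ) (V : Set (Fin n → ZMod p)) : Prop :=
  ∃ F : Set (MvPolynomial (Fin n) (ZMod p)), (∀ f ∈ F, f.totalDegree ≤ d) ∧
    ∀ x, x ∈ V ↔ ∀ f ∈ F, MvPolynomial.eval x f = 0

/-- `S` is the support of a linear combination with coefficients in `F_p` of the indicator
functions of at most `m` varieties of degree at most `d`. -/
def IsSupport {p n : ℕ} (d : ℕ) (m : ℝ) (S : Set (Fin n → ZMod p)) : Prop :=
  ∃ (M : ℕ) (V : Fin M → Set (Fin n → ZMod p)) (c : Fin M → ZMod p), (M : ℝ) ≤ m ∧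
    (∀ i, IsVariety d (V i)) ∧ ∀ x, x ∈ S ↔ (∑ i, if x ∈ V i then c i else 0) ≠ 0

/-- `A` is the union of at most `m` sets of this kind. -/
def GivenBy {p n : ℕ} (d : ℕ) (m : ℝ) (A : Finset (Fin n → ZMod p)) : Prop :=
  ∃ (N : ℕ) (S : Fin N → Set (Fin n → ZMod p)), (N : ℝ) ≤ m ∧ (∀ j, IsSupport d m (S j)) ∧
    ∀ x, x ∈ A ↔ ∃ j, x ∈ S j

section proof

variable {p n : ℕ} [Fact p.Prime]

lemma eval_mem {d : ℕ} (f : MvPolynomial (Fin n) (ZMod p)) (hf : f.totalDegree ≤ d) :
    (fun x => MvPolynomial.eval x f) ∈ H281A.L p (Fin n) d := by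
  have e : (fun x => MvPolynomial.eval x f) =
      ∑ s ∈ f.support, f.coeff s • fun x : Fin n → ZMod p => ∏ i, x i ^ s i := by
    funext x
    rw [MvPolynomial.eval_eq', Finset.sum_apply]
    rfl
  rw [e]
  refine Submodule.sum_mem _ fun s hs => Submodule.smul_mem _ _ ?_
  refine H281A.mon_mem _ ?_
  have h := MvPolynomial.le_totalDegree hs
  rw [Finsupp.sum_fintype _ _ (fun _ => rfl)] at h
  exact h.trans hf

lemma supp_of {d : ℕ} {m : ℝ} {S : Set (Fin n → ZMod p)} (h : IsSupport d m S) :
    ∃ M : ℕ, (M : ℝ) ≤ m ∧ H281A.Supp d M (univ.filter fun x => x ∈ S) := by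
  obtain ⟨M, V, c, hM, hV, hx⟩ := h
  choose F hF hFx using hV
  refine ⟨M, hM, fun i => (fun f x => MvPolynomial.eval x f) '' F i, c, ?_, ?_⟩
  · rintro i _ ⟨f, hf, rfl⟩
    exact eval_mem f (hF i f hf)
  · intro x
    rw [Finset.mem_filter, hx]
    simp only [mem_univ, true_and]
    have e : ∀ i, (if x ∈ V i then c i else 0) =
        if ∀ f ∈ (fun (f : MvPolynomial (Fin n) (ZMod p)) x => MvPolynomial.eval x f) '' F i,
          f x = 0 then c i else 0 := by
      intro i
      refine if_congr ?_ rfl rfl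
      rw [hFx]
      simp
    rw [Finset.sum_congr rfl fun i _ => e i]

lemma apfree_sub {k : ℕ} {A B : Finset (Fin n → ZMod p)} (hA : APFree k A) (h : B ⊆ A) :
    H281A.APFree k B := fun x y hxy => hA x y fun i hi => h (hxy i hi)

lemma union_bound {k d : ℕ} {c C : ℝ} (hC : 0 ≤ C)
    (H : ∀ (M : ℕ) (S : Finset (Fin n → ZMod p)), H281A.APFree k S → H281A.Supp d M S →
      (M : ℝ) ≤ (p : ℝ) ^ (c * n) → (S.card : ℝ) ≤ C * (p : ℝ) ^ ((1 - 2 * c) * n))
    (A : Finset (Fin n → ZMod p)) (hA : APFree k A) (hG : GivenBy d ((p : ℝ) ^ (c * n)) A) :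
    (A.card : ℝ) ≤ C * (p : ℝ) ^ ((1 - c) * n) := by
  obtain ⟨N, S, hN, hS, hx⟩ := hG
  have hp0 : (0 : ℝ) < p := by exact_mod_cast (Fact.out : p.Prime).pos
  have h1 : ∀ j, ((univ.filter fun x => x ∈ S j).card : ℝ) ≤
      C * (p : ℝ) ^ ((1 - 2 * c) * n) := by
    intro j
    obtain ⟨M, hM, hs⟩ := supp_of (hS j)
    refine H M _ (apfree_sub hA ?_) hs hM
    intro x hxS
    rw [Finset.mem_filter] at hxS
    exact (hx x).2 ⟨j, hxS.2⟩
  have h2 : A ⊆ univ.biUnion fun j => univ.filter fun x => x ∈ S j := by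
    intro x hxA
    obtain ⟨j, hj⟩ := (hx x).1 hxA
    exact Finset.mem_biUnion.2 ⟨j, mem_univ _, Finset.mem_filter.2 ⟨mem_univ _, hj⟩⟩
  have h3 : (A.card : ℝ) ≤ ∑ j : Fin N, ((univ.filter fun x => x ∈ S j).card : ℝ) := by
    exact_mod_cast (Finset.card_le_card h2).trans Finset.card_biUnion_le
  calc (A.card : ℝ) ≤ ∑ j : Fin N, ((univ.filter fun x => x ∈ S j).card : ℝ) := h3
    _ ≤ ∑ _j : Fin N, C * (p : ℝ) ^ ((1 - 2 * c) * n) := Finset.sum_le_sum fun j _ => h1 j
    _ = N * (C * (p : ℝ) ^ ((1 - 2 * c) * n)) := by simp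
    _ ≤ (p : ℝ) ^ (c * n) * (C * (p : ℝ) ^ ((1 - 2 * c) * n)) :=
        mul_le_mul_of_nonneg_right hN (mul_nonneg hC (Real.rpow_nonneg hp0.le _))
    _ = C * ((p : ℝ) ^ (c * n) * (p : ℝ) ^ ((1 - 2 * c) * n)) := by ring
    _ = C * (p : ℝ) ^ ((1 - c) * n) := by
        rw [← Real.rpow_add hp0]; congr 2; ring

end proof

/-- (1) Let `p` be prime, `3 ≤ k ≤ p`, and let `A ⊆ F_p^n` be a set without nontrivial `k`-term
progressions. If `(k - 2) D ≤ (1 - δ) (p - 1) n` then at most `4 p^n exp (- δ² n / 2)` points of `A`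
have a certificate of degree `D`. (2) For every prime `p ≥ 5` and every `d` there are `c > 0` and
`C` such that `|A| ≤ C p^((1 - c) n)` for every `n` and every set `A ⊆ F_p^n` without nontrivial
four-term progressions which is a union of at most `p^(c n)` supports of linear combinations of the
indicator functions of at most `p^(c n)` varieties of degree at most `d`. (3) The same for `k`-term
progressions, `4 ≤ k ≤ p`, if `p ≥ (k - 1)^(4 d (k - 1) (k - 2))`, `d ≥ 1`. -/
theorem result :
    (∀ (p k n D : ℕ) (δ : ℝ), p.Prime → 3 ≤ k → k ≤ p → 0 ≤ δ →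
      ((k : ℝ) - 2) * D ≤ (1 - δ) * ((p : ℝ) - 1) * n →
      ∀ A A' : Finset (Fin n → ZMod p), APFree k A → (∀ x ∈ A', HasCertificate D A x) →
        (A'.card : ℝ) ≤ 4 * (p : ℝ) ^ n * Real.exp (-(δ ^ 2 * n / 2))) ∧
    (∀ p d : ℕ, p.Prime → 5 ≤ p → ∃ c C : ℝ, 0 < c ∧
      ∀ (n : ℕ) (A : Finset (Fin n → ZMod p)), APFree 4 A → GivenBy d ((p : ℝ) ^ (c * n)) A →
        (A.card : ℝ) ≤ C * (p : ℝ) ^ ((1 - c) * n)) ∧
    (∀ p k d : ℕ, p.Prime → 4 ≤ k → k ≤ p → 1 ≤ d →
      (k - 1) ^ (4 * d * (k - 1) * (k - 2)) ≤ p → ∃ c C : ℝ, 0 < c ∧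
      ∀ (n : ℕ) (A : Finset (Fin n → ZMod p)), APFree k A → GivenBy d ((p : ℝ) ^ (c * n)) A →
        (A.card : ℝ) ≤ C * (p : ℝ) ^ ((1 - c) * n)) := by
  refine ⟨?_, ?_, ?_⟩
  · intro p k n D δ hp hk hkp hδ hD A A' hA hc
    haveI : Fact p.Prime := ⟨hp⟩
    have h1 := H281A.cert_bound (D := D) (by omega) hkp A A' (fun x y h => hA x y h) fun x hx => by
      obtain ⟨f, hf, hfx, hfA⟩ := hc x hx
      exact ⟨_, eval_mem f hf, hfx, hfA⟩
    have h2 := H281A.card_Red_le (p := p) (ι := Fin n) ((k - 2) * D / 2) δ hδ (by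
      rw [Fintype.card_fin]
      refine (Nat.cast_div_le).trans ?_
      rw [Nat.cast_mul, Nat.cast_sub (by omega)]
      push_cast
      linarith)
    rw [Fintype.card_fin] at h2
    have h3 : (A'.card : ℝ) ≤ 4 * ((H281A.Red p (Fin n) ((k - 2) * D / 2)).card : ℝ) := by
      exact_mod_cast h1
    linarith
  · intro p d hp hp5
    haveI : Fact p.Prime := ⟨hp⟩
    obtain ⟨c, C, hc, _, H⟩ := H281A.bound4 (p := p) hp5 d
    refine ⟨c, max C 0, hc, fun n A hA hG => ?_⟩
    refine union_bound (le_max_right _ _) (fun M S hS hs hM => ?_) A hA hG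
    exact (H n M S hS hs hM).trans (mul_le_mul_of_nonneg_right (le_max_left _ _)
      (Real.rpow_nonneg (Nat.cast_nonneg _) _))
  · intro p k d hp hk hkp hd hpk
    haveI : Fact p.Prime := ⟨hp⟩
    obtain ⟨c, C, hc, _, H⟩ := H281A.boundk (p := p) hk hkp hd hpk
    refine ⟨c, max C 0, hc, fun n A hA hG => ?_⟩
    refine union_bound (le_max_right _ _) (fun M S hS hs hM => ?_) A hA hG
    exact (H n M S hS hs hM).trans (mul_le_mul_of_nonneg_right (le_max_left _ _)
      (Real.rpow_nonneg (Nat.cast_nonneg _) _))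

end Pool.Agent.Results.MP_b30443_co.VarietiesAndCertificates
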